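import Pool.Agent.H12.KP.Targets4

/-! Board kpi_modules, row COMPL: completions of discrete valuation rings exist. -/

namespace Pool.Agent.H24.KP

open Pool.Agent.H12.KP Polynomial TensorProduct

universe u v

section

variable {A : Type u} [CommRing A]

private theorem evalA_zero_iff (π : A) (n : ℕ) (x : AdicCompletion (Ideal.span {π}) A) :
    AdicCompletion.evalₐ (Ideal.span {π}) n x = 0 ↔
      algebraMap A (AdicCompletion (Ideal.span {π}) A) π ^ n ∣ x := by
  constructor
  · intro h
    have h1 : (AdicCompletion.eval (Ideal.span {π}) A n) x = 0 := by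
      have h2 : (Ideal.span {π}) ^ n ≤ (Ideal.span {π}) ^ n • (⊤ : Ideal A) := by
        simp
      rw [← AdicCompletion.factor_evalₐ_eq_eval (Ideal.span {π}) x h2, h, map_zero]
    have hfg : (Ideal.span {π}).FG := ⟨{π}, by simp⟩
    have h3 : x ∈ (Ideal.span {π}) ^ n •
        (⊤ : Submodule A (AdicCompletion (Ideal.span {π}) A)) := by
      rw [AdicCompletion.pow_smul_top_eq_ker_eval hfg, LinearMap.mem_ker]
      exact h1
    rw [Ideal.span_singleton_pow, Submodule.ideal_span_singleton_smul,
      Submodule.mem_smul_pointwise_iff_exists] at h3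
    obtain ⟨y, -, hy⟩ := h3
    refine ⟨y, ?_⟩
    rw [← hy, Algebra.smul_def, map_pow]
  · rintro ⟨y, rfl⟩
    rw [map_mul, map_pow, AlgHom.commutes]
    have h1 : (algebraMap A (A ⧸ Ideal.span {π} ^ n)) π ^ n = 0 := by
      rw [← map_pow, Ideal.Quotient.algebraMap_eq, Ideal.Quotient.eq_zero_iff_mem]
      exact Ideal.pow_mem_pow (Ideal.mem_span_singleton_self π) n
    rw [h1, zero_mul]

private theorem dense_aux (π : A) (x : AdicCompletion (Ideal.span {π}) A) (k : ℕ) :
    ∃ a : A, algebraMap A (AdicCompletion (Ideal.span {π}) A) π ^ k ∣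
      x - algebraMap A (AdicCompletion (Ideal.span {π}) A) a := by
  obtain ⟨a, ha⟩ := Ideal.Quotient.mk_surjective (AdicCompletion.evalₐ (Ideal.span {π}) k x)
  refine ⟨a, ?_⟩
  rw [← evalA_zero_iff, map_sub, AlgHom.commutes, ← ha, Ideal.Quotient.algebraMap_eq, sub_self]

private theorem pure_aux (π : A) (a : A) (k : ℕ)
    (h : algebraMap A (AdicCompletion (Ideal.span {π}) A) π ^ k ∣
      algebraMap A (AdicCompletion (Ideal.span {π}) A) a) : π ^ k ∣ a := by
  rw [← evalA_zero_iff, AlgHom.commutes, Ideal.Quotient.algebraMap_eq,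
    Ideal.Quotient.eq_zero_iff_mem, Ideal.span_singleton_pow, Ideal.mem_span_singleton] at h
  exact h

private theorem sep_aux (π : A) (x : AdicCompletion (Ideal.span {π}) A)
    (h : ∀ k, algebraMap A (AdicCompletion (Ideal.span {π}) A) π ^ k ∣ x) : x = 0 := by
  refine AdicCompletion.ext_evalₐ (I := Ideal.span {π}) ?_
  intro n
  rw [map_zero, evalA_zero_iff]
  exact h n

private theorem compl_aux (π : A) :
    SeqCompl (algebraMap A (AdicCompletion (Ideal.span {π}) A) π) := by
  intro f hf
  have hfg : (Ideal.span {π}).FG := ⟨{π}, by simp⟩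
  have hc := AdicCompletion.isAdicComplete (M := A) hfg
  have hmem : ∀ (n : ℕ) (x : AdicCompletion (Ideal.span {π}) A),
      x ∈ (Ideal.span {π}) ^ n • (⊤ : Submodule A (AdicCompletion (Ideal.span {π}) A)) ↔
        algebraMap A (AdicCompletion (Ideal.span {π}) A) π ^ n ∣ x := by
    intro n x
    rw [Ideal.span_singleton_pow, Submodule.ideal_span_singleton_smul,
      Submodule.mem_smul_pointwise_iff_exists]
    constructor
    · rintro ⟨y, -, rfl⟩
      rw [Algebra.smul_def, map_pow]
      exact Dvd.intro _ rfl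
    · rintro ⟨y, rfl⟩
      exact ⟨y, Submodule.mem_top, by rw [Algebra.smul_def, map_pow]⟩
  have hstep : ∀ (m d : ℕ), algebraMap A (AdicCompletion (Ideal.span {π}) A) π ^ m ∣
      f (m + d) - f m := by
    intro m d
    induction d with
    | zero => simp
    | succ d ih =>
      have h1 : f (m + (d + 1)) - f m = (f (m + d + 1) - f (m + d)) + (f (m + d) - f m) := by
        rw [← add_assoc]; ring
      rw [h1]
      exact dvd_add ((pow_dvd_pow _ (Nat.le_add_right m d)).trans (hf (m + d))) ih
  obtain ⟨L, hL⟩ := hc.toIsPrecomplete.prec (f := f) (by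
    intro m n hmn
    obtain ⟨d, rfl⟩ := Nat.exists_eq_add_of_le hmn
    rw [SModEq.sub_mem, hmem]
    have h1 : f m - f (m + d) = -(f (m + d) - f m) := by ring
    rw [h1]
    exact (dvd_neg).2 (hstep m d))
  refine ⟨L, ?_⟩
  intro k
  have h2 := hL k
  rw [SModEq.sub_mem, hmem] at h2
  have h1 : L - f k = -(f k - L) := by ring
  rw [h1]
  exact (dvd_neg).2 h2

end

theorem pf_COMPL : S_COMPL.{u} := by
  intro A _ _ _ π hπ
  refine ⟨AdicCompletion (Ideal.span {π}) A, inferInstance, inferInstance, ?_⟩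
  have hprime : Prime π := hπ.prime
  set q : AdicCompletion (Ideal.span {π}) A := algebraMap A _ π with hq
  have htf : ∀ (N : ℕ) (z : AdicCompletion (Ideal.span {π}) A), q ^ N * z = 0 → z = 0 := by
    intro N z hz
    apply sep_aux π z
    intro k
    obtain ⟨a, w, hw⟩ := dense_aux π z k
    have h1 : z = algebraMap A _ a + q ^ k * w := by
      rw [← hw]; ring
    have h2 : q ^ (N + k) ∣ algebraMap A (AdicCompletion (Ideal.span {π}) A) (π ^ N * a) := by
      refine ⟨-w, ?_⟩
      rw [map_mul, map_pow]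
      have h3 : q ^ N * (algebraMap A _ a + q ^ k * w) = 0 := by rw [← h1]; exact hz
      rw [pow_add]
      linear_combination h3
    have h4 : π ^ (N + k) ∣ π ^ N * a := pure_aux π _ _ h2
    rw [pow_add] at h4
    have h5 : π ^ k ∣ a := (mul_dvd_mul_iff_left (pow_ne_zero N hπ.ne_zero)).1 h4
    rw [h1]
    refine dvd_add ?_ (Dvd.intro _ rfl)
    obtain ⟨t, rfl⟩ := h5
    rw [map_mul, map_pow]
    exact Dvd.intro _ rfl
  have hdec : ∀ x : AdicCompletion (Ideal.span {π}) A, x ≠ 0 →
      ∃ (m : ℕ) (x' : AdicCompletion (Ideal.span {π}) A), x = q ^ m * x' ∧ ¬ q ∣ x' := by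
    classical
    intro x hx
    have h1 : ∃ k, ¬ q ^ k ∣ x := by
      by_contra h
      push Not at h
      exact hx (sep_aux π x h)
    have h2 := Nat.find_spec h1
    have h3 : Nat.find h1 ≠ 0 := by
      intro h0
      rw [h0, pow_zero] at h2
      exact h2 (one_dvd _)
    obtain ⟨m, hm⟩ := Nat.exists_eq_succ_of_ne_zero h3
    have h4 : q ^ m ∣ x := by
      by_contra h
      have := Nat.find_min' h1 h
      omega
    obtain ⟨x', hx'⟩ := h4
    refine ⟨m, x', hx', ?_⟩
    rintro ⟨y, hy⟩
    apply h2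
    rw [hm, Nat.succ_eq_add_one]
    refine ⟨y, ?_⟩
    rw [hx', hy]; ring
  refine ⟨?_, dense_aux π, pure_aux π, sep_aux π, compl_aux π⟩
  have hnt : Nontrivial (AdicCompletion (Ideal.span {π}) A) := by
    refine ⟨⟨0, 1, ?_⟩⟩
    intro h
    have h1 : algebraMap A (AdicCompletion (Ideal.span {π}) A) π ^ 1 ∣
        algebraMap A (AdicCompletion (Ideal.span {π}) A) 1 := by
      rw [map_one, ← h]
      exact dvd_zero _
    have h2 := pure_aux π 1 1 h1
    rw [pow_one] at h2
    exact hπ.not_isUnit (isUnit_of_dvd_one h2)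
  have hnz : NoZeroDivisors (AdicCompletion (Ideal.span {π}) A) := by
    refine ⟨?_⟩
    intro x y hxy
    by_contra hcon
    push Not at hcon
    obtain ⟨m, x', hx, hx'⟩ := hdec x hcon.1
    obtain ⟨n, y', hy, hy'⟩ := hdec y hcon.2
    have h1 : q ^ (m + n) * (x' * y') = 0 := by
      have : q ^ (m + n) * (x' * y') = (q ^ m * x') * (q ^ n * y') := by ring
      rw [this, ← hx, ← hy]
      exact hxy
    have h2 := htf _ _ h1
    obtain ⟨a, u, hu⟩ := dense_aux π x' 1
    obtain ⟨b, v, hv⟩ := dense_aux π y' 1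
    rw [pow_one] at hu hv
    have hxa : x' = algebraMap A _ a + q * u := by rw [← hu]; ring
    have hyb : y' = algebraMap A _ b + q * v := by rw [← hv]; ring
    have h3 : algebraMap A (AdicCompletion (Ideal.span {π}) A) π ^ 1 ∣
        algebraMap A (AdicCompletion (Ideal.span {π}) A) (a * b) := by
      refine ⟨-(algebraMap A _ a * v + algebraMap A _ b * u + q * u * v), ?_⟩
      rw [map_mul, pow_one]
      have h4 : (algebraMap A _ a + q * u) * (algebraMap A _ b + q * v) = 0 := by
        rw [← hxa, ← hyb]; exact h2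
      linear_combination h4
    have h5 := pure_aux π _ 1 h3
    rw [pow_one] at h5
    rcases hprime.dvd_or_dvd h5 with h6 | h6
    · obtain ⟨t, rfl⟩ := h6
      apply hx'
      rw [hxa, map_mul]
      exact dvd_add (Dvd.intro _ rfl) (Dvd.intro _ rfl)
    · obtain ⟨t, rfl⟩ := h6
      apply hy'
      rw [hyb, map_mul]
      exact dvd_add (Dvd.intro _ rfl) (Dvd.intro _ rfl)
  exact NoZeroDivisors.to_isDomain _

end Pool.Agent.H24.KP
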